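import Pool.Agent.N345.Mann.Few

set_option autoImplicit false
set_option linter.unusedSectionVars false

/-!
# Latin squares and sharply transitive sets of permutations
-/

namespace Pool.Agent.N345.Mann

open Finset
open scoped Classical

variable {n : ℕ}

/-- a violation of the quadrangle criterion -/
def Viol (L : Fin n → Fin n → Fin n) (r₁ r₂ r₃ r₄ c₁ c₂ c₃ c₄ : Fin n) : Prop :=
  L r₁ c₁ = L r₂ c₂ ∧ L r₁ c₃ = L r₂ c₄ ∧ L r₃ c₁ = L r₄ c₂ ∧ L r₃ c₃ ≠ L r₄ c₄

theorem bridge (L : Fin n → Fin n → Fin n) (hrow : ∀ r, Function.Bijective (L r))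
    (hcol : ∀ c, Function.Bijective fun r => L r c) (r : Fin n) :
    ∃ u : Fin n → Equiv.Perm (Fin n), Sharp u ∧ (∀ s c, L s (u s c) = L r c) ∧
      F u ≤ Nat.card {x : (Fin 3 → Fin n) × (Fin 4 → Fin n) //
        Viol L r (x.1 0) (x.1 1) (x.1 2) (x.2 0) (x.2 1) (x.2 2) (x.2 3)} := by
  set τ : Fin n → Equiv.Perm (Fin n) := fun s => Equiv.ofBijective (L s) (hrow s) with hτ
  have hτa : ∀ s c, τ s c = L s c := fun s c => rfl
  set u : Fin n → Equiv.Perm (Fin n) := fun s => (τ r).trans (τ s).symm with hu'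
  have hua : ∀ s c, L s (u s c) = L r c := by
    intro s c
    rw [← hτa, hu']
    simp only [Equiv.trans_apply, Equiv.apply_symm_apply]
    rfl
  have huq : ∀ s c d, L r c = L s d → u s c = d := by
    intro s c d h
    apply (hrow s).1
    rw [hua, h]
  have hu : Sharp u := by
    refine ⟨?_, ?_, ⟨r, ?_⟩⟩
    · intro c c'
      obtain ⟨w, hw⟩ := (hcol c').2 (L r c)
      exact ⟨w, huq w c c' hw.symm⟩
    · intro w w' c h
      have h1 := hua w c
      have h2 := hua w' c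
      rw [h] at h1
      exact (hcol _).1 (h1.trans h2.symm)
    · ext c
      simp [hu']
  refine ⟨u, hu, hua, ?_⟩
  have e1 : F u = Nat.card {q : Fin n × Fin n × (Fin n × Fin n) //
        Fail u q.1 q.2.1 q.2.2.1 q.2.2.2} := by
    rw [Nat.card_eq_fintype_card, Fintype.card_subtype, F]
    simp_rw [Finset.card_filter, Fintype.sum_prod_type]
  rw [e1]
  choose W hW1 hW2 using fun q : {q : Fin n × Fin n × (Fin n × Fin n) //
        Fail u q.1 q.2.1 q.2.2.1 q.2.2.2} => q.2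
  refine Nat.card_le_card_of_injective (fun q => ⟨(![q.1.1, q.1.2.1, W q],
    ![u q.1.2.1 q.1.2.2.1, u q.1.1 (u q.1.2.1 q.1.2.2.1), u q.1.2.1 q.1.2.2.2,
      u q.1.1 (u q.1.2.1 q.1.2.2.2)]), ?_⟩) ?_
  · refine ⟨?_, ?_, ?_, ?_⟩
    · exact (hua _ _).symm
    · exact (hua _ _).symm
    · change L q.1.2.1 (u q.1.2.1 q.1.2.2.1) = L (W q) (u q.1.1 (u q.1.2.1 q.1.2.2.1))
      rw [hua, ← hW1 q, hua]
    · change L q.1.2.1 (u q.1.2.1 q.1.2.2.2) ≠ L (W q) (u q.1.1 (u q.1.2.1 q.1.2.2.2))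
      rw [hua]
      intro h
      exact hW2 q (huq _ _ _ h)
  · rintro ⟨⟨s, t, x, y⟩, hq⟩ ⟨⟨s', t', x', y'⟩, hq'⟩ h
    simp only [Subtype.mk.injEq, Prod.mk.injEq] at h
    obtain ⟨h1, h2⟩ := h
    have a1 : s = s' := congrFun h1 0
    have a2 : t = t' := congrFun h1 1
    subst a1
    subst a2
    have a3 : u t x = u t x' := congrFun h2 0
    have a4 : u t y = u t y' := congrFun h2 2
    have a5 := (u t).injective a3
    have a6 := (u t).injective a4
    subst a5
    subst a6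
    rfl

end Pool.Agent.N345.Mann
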