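import Pool.Agent.N345.Mann.Few

set_option autoImplicit false
set_option linter.unusedSectionVars false

/-!
# Regular groups with an odd permutation
-/

namespace Pool.Agent.N345.Mann

open Finset Equiv.Perm
open scoped Classical

variable {n : ℕ}

/-- lengths of cycles -/
theorem exists_fixed {σ : Equiv.Perm (Fin n)} {l : ℕ} (hl : l ∈ σ.cycleType) :
    ∃ x, (σ ^ l) x = x := by
  obtain ⟨c, τ, e, hd, hc, hcard⟩ := mem_cycleType_iff.1 hl
  obtain ⟨x, hx⟩ := hc.nonempty_support
  refine ⟨x, ?_⟩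
  have h1 : Commute c τ := hd.commute
  have h2 : τ x = x := by
    rcases hd x with h | h
    · exact absurd h (mem_support.1 hx)
    · exact h
  have h3 : (τ ^ l) x = x := by
    clear hl hcard e
    induction l with
    | zero => rfl
    | succ l ih => rw [pow_succ, Equiv.Perm.mul_apply, h2, ih]
  have h4 : c ^ l = 1 := by
    rw [← hcard, ← hc.orderOf]
    exact pow_orderOf_eq_one c
  rw [e, h1.mul_pow, Equiv.Perm.mul_apply, h3, h4]
  rfl

variable {H : Subgroup (Equiv.Perm (Fin n))}

theorem free_reg (hreg : ∀ x y : Fin n, ∃! h, h ∈ H ∧ h x = y) {h : Equiv.Perm (Fin n)}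
    (hh : h ∈ H) {x : Fin n} (hx : h x = x) : h = 1 := by
  obtain ⟨g, -, hg⟩ := hreg x x
  exact (hg h ⟨hh, hx⟩).trans (hg 1 ⟨H.one_mem, rfl⟩).symm

/-- an odd permutation in a regular group: `n` is an odd multiple of its order -/
theorem odd_perm (hreg : ∀ x y : Fin n, ∃! h, h ∈ H ∧ h x = y) (hn : Even n)
    {h : Equiv.Perm (Fin n)} (hh : h ∈ H) (hs : sign h = -1) :
    ∃ k, Odd k ∧ k * orderOf h = n := by
  have hne : h ≠ 1 := by
    rintro rfl
    rw [Equiv.Perm.sign_one] at hs
    exact absurd hs (by decide)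
  have hsupp : h.support = univ := by
    ext x
    simp only [mem_support, mem_univ, iff_true]
    intro hx
    exact hne (free_reg hreg hh hx)
  have hall : ∀ l ∈ h.cycleType, l = orderOf h := by
    intro l hl
    obtain ⟨x, hx⟩ := exists_fixed hl
    have h1 : h ^ l = 1 := free_reg hreg (H.pow_mem hh l) hx
    exact Nat.dvd_antisymm (dvd_of_mem_cycleType hl) (orderOf_dvd_of_pow_eq_one h1)
  have hrep : h.cycleType = Multiset.replicate h.cycleType.card (orderOf h) :=
    Multiset.eq_replicate_card.2 hall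
  have hsum := sum_cycleType h
  rw [hsupp, card_univ, Fintype.card_fin] at hsum
  have hsum' := hsum
  rw [hrep, Multiset.sum_replicate, smul_eq_mul] at hsum'
  refine ⟨h.cycleType.card, ?_, hsum'⟩
  rw [sign_of_cycleType, hsum] at hs
  by_contra hk
  rw [Nat.not_odd_iff_even] at hk
  have : Even (n + h.cycleType.card) := hn.add hk
  rw [this.neg_one_pow] at hs
  exact absurd hs (by decide)

/-- the homomorphism onto a cyclic group of order `2 ^ a` -/
theorem exists_hom (hreg : ∀ x y : Fin n, ∃! h, h ∈ H ∧ h x = y) (hcard : Nat.card H = n)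
    (hn : Even n) (hn0 : 0 < n) {h : Equiv.Perm (Fin n)} (hh : h ∈ H) (hs : sign h = -1) :
    ∃ (K : ℕ) (f : H →* Multiplicative (ZMod (2 * K))), 0 < K ∧ Function.Surjective f ∧
      Odd (Nat.card f.ker) := by
  have : Fact (Nat.Prime 2) := ⟨Nat.prime_two⟩
  obtain ⟨k, hk, hkn⟩ := odd_perm hreg hn hh hs
  set a := (Nat.card H).factorization 2 with ha
  have ha1 : a ≠ 0 := by
    rw [ha, hcard]
    intro h0
    rw [Nat.factorization_eq_zero_iff] at h0
    rcases h0 with h0 | h0 | h0
    · exact h0 Nat.prime_two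
    · exact h0 hn.two_dvd
    · omega
  -- the order of `h` is divisible by `2 ^ a`
  have hdvd : 2 ^ a ∣ orderOf h := by
    have h1 : 2 ^ a ∣ n := by rw [ha, hcard]; exact Nat.ordProj_dvd n 2
    rw [← hkn] at h1
    exact (Nat.Coprime.pow_left a ((Nat.coprime_two_left).2 hk)).dvd_of_dvd_mul_left h1
  obtain ⟨m', hm'⟩ := hdvd
  have ho : orderOf (⟨h, hh⟩ : H) = orderOf h := Subgroup.orderOf_mk h hh
  have hm0 : m' ≠ 0 := by
    rintro rfl
    rw [mul_zero] at hm'
    rw [hm', mul_zero] at hkn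
    omega
  set y : H := (⟨h, hh⟩ : H) ^ m' with hy
  have hyo : orderOf y = 2 ^ a := by
    rw [hy, orderOf_pow_of_dvd hm0 (by rw [ho, hm']; exact Dvd.intro_left _ rfl), ho, hm',
      Nat.mul_div_cancel _ (Nat.pos_of_ne_zero hm0)]
  have hpg : IsPGroup 2 (Subgroup.zpowers y) := by
    refine IsPGroup.of_card (n := a) ?_
    rw [Nat.card_zpowers, hyo]
  obtain ⟨Q, hQ⟩ := hpg.exists_le_sylow
  have hQc : Nat.card Q = 2 ^ a := Sylow.card_eq_multiplicity Q
  have hQe : Subgroup.zpowers y = (Q : Subgroup H) := by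
    refine Subgroup.eq_of_le_of_card_ge hQ ?_
    rw [Nat.card_zpowers, hyo]
    exact le_of_eq hQc
  have hcyc : IsCyclic Q := by
    have : IsCyclic (Subgroup.zpowers y) := inferInstance
    have e : (Q : Subgroup H) = Subgroup.zpowers y := hQe.symm
    change IsCyclic (Q : Subgroup H)
    rw [e]
    infer_instance
  have hmin : (Nat.card H).minFac = 2 := by
    rw [Nat.minFac_eq_two_iff, hcard]
    exact hn.two_dvd
  have hcomp := IsCyclic.isComplement' hmin hcyc
  set ψ := MonoidHom.transferSylow Q (IsCyclic.normalizer_le_centralizer hmin hcyc) with hψ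
  have hmul := hcomp.card_mul_card
  have hkerodd : Odd (Nat.card ψ.ker) := by
    rw [← Nat.not_even_iff_odd]
    intro he
    have h1 : 2 ^ (a + 1) ∣ Nat.card H := by
      rw [← hmul]
      have : Nat.card (Q : Subgroup H) = 2 ^ a := hQc
      rw [this, pow_succ, mul_comm (2 ^ a) 2]
      exact Nat.mul_dvd_mul he.two_dvd dvd_rfl
    rw [Nat.Prime.pow_dvd_iff_le_factorization Nat.prime_two Nat.card_pos.ne'] at h1
    omega
  have hsurj : Function.Surjective ψ := by
    rw [← MonoidHom.range_eq_top]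
    apply Subgroup.eq_top_of_card_eq
    have h1 : Nat.card ψ.ker * Nat.card ψ.range = Nat.card H := by
      rw [← Subgroup.index_ker ψ]
      exact Subgroup.card_mul_index ψ.ker
    rw [← hmul] at h1
    exact Nat.eq_of_mul_eq_mul_left Nat.card_pos h1
  obtain ⟨a', ha'⟩ : ∃ a', a = a' + 1 := ⟨a - 1, by omega⟩
  have hQc' : Nat.card (Q : Subgroup H) = 2 * 2 ^ a' := by
    rw [show Nat.card (Q : Subgroup H) = 2 ^ a from hQc, ha', pow_succ, mul_comm]
  let e := (zmodCyclicMulEquiv hcyc).symm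
  refine ⟨2 ^ a', ?_⟩
  rw [← hQc']
  refine ⟨e.toMonoidHom.comp ψ, pow_pos two_pos _, e.surjective.comp hsurj, ?_⟩
  have : (e.toMonoidHom.comp ψ).ker = ψ.ker := by
    ext x
    simp [MonoidHom.mem_ker]
  rw [this]
  exact hkerodd

theorem sum_zmod {K : ℕ} [NeZero (2 * K)] :
    ∑ x : ZMod (2 * K), x = ((K * (2 * K - 1) : ℕ) : ZMod (2 * K)) := by
  have e1 : ∑ x : ZMod (2 * K), x = ∑ i ∈ range (2 * K), (i : ZMod (2 * K)) := by
    rw [Finset.sum_range]
    refine Fintype.sum_bijective (fun x : ZMod (2 * K) => (⟨x.val, ZMod.val_lt x⟩ : Fin (2 * K)))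
      ?_ _ _ ?_
    · refine ⟨?_, ?_⟩
      · intro x y e
        exact ZMod.val_injective _ (congrArg Fin.val e)
      · intro i
        exact ⟨(i.1 : ZMod (2 * K)), Fin.ext (ZMod.val_cast_of_lt i.2)⟩
    · intro x
      simp
  rw [e1, ← Nat.cast_sum, Finset.sum_range_id]
  congr 1
  rw [Nat.mul_assoc, Nat.mul_div_cancel_left _ two_pos]

/-- the sum of the values of the homomorphism -/
theorem sum_ne {K : ℕ} (hK : 0 < K) {f : H →* Multiplicative (ZMod (2 * K))}
    (hf : Function.Surjective f) (hodd : Odd (Nat.card f.ker)) :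
    ∑ h : H, (f h).toAdd ≠ 0 := by
  have : NeZero (2 * K) := ⟨by omega⟩
  have e1 : ∑ h : H, (f h).toAdd = ∑ x : ZMod (2 * K), Nat.card f.ker • x := by
    rw [← Finset.sum_fiberwise univ (fun h => (f h).toAdd)]
    refine sum_congr rfl fun x _ => ?_
    have e2 : ∑ h ∈ univ.filter (fun h : H => (f h).toAdd = x), (f h).toAdd =
        ∑ h ∈ univ.filter (fun h : H => (f h).toAdd = x), x :=
      sum_congr rfl fun h hh => (mem_filter.1 hh).2
    rw [e2, sum_const]
    congr 1
    obtain ⟨h0, hh0⟩ := hf (Multiplicative.ofAdd x)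
    rw [Nat.card_eq_fintype_card, ← Fintype.card_coe]
    refine Fintype.card_congr ⟨fun h => ⟨h0⁻¹ * h.1, ?_⟩, fun k => ⟨h0 * k.1, ?_⟩, ?_, ?_⟩
    · have h2 := (mem_filter.1 h.2).2
      rw [MonoidHom.mem_ker, map_mul, map_inv, hh0]
      have : f h.1 = Multiplicative.ofAdd x := h2
      rw [this, inv_mul_cancel]
    · have h2 := MonoidHom.mem_ker.1 k.2
      rw [mem_filter]
      refine ⟨mem_univ _, ?_⟩
      rw [map_mul, h2, hh0, mul_one]
      rfl
    · intro h
      simp
    · intro k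
      simp
  rw [e1, ← Finset.smul_sum, sum_zmod, nsmul_eq_mul, ← Nat.cast_mul]
  intro h0
  rw [ZMod.natCast_eq_zero_iff] at h0
  have h1 : 2 * K ∣ (Nat.card f.ker * (2 * K - 1)) * K := by
    have : Nat.card f.ker * (K * (2 * K - 1)) = (Nat.card f.ker * (2 * K - 1)) * K := by ring
    rwa [this] at h0
  have h2 : 2 ∣ Nat.card f.ker * (2 * K - 1) := Nat.dvd_of_mul_dvd_mul_right hK h1
  have h3 : Odd (2 * K - 1) := by
    rw [Nat.odd_iff]
    omega
  have h4 := hodd.mul h3
  rw [Nat.odd_iff] at h4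
  omega

theorem sum_inj {K : ℕ} (hcard : Nat.card H = n) {f : H →* Multiplicative (ZMod (2 * K))}
    {g : Fin n → H} (hi : Function.Injective g) :
    ∑ s, (f (g s)).toAdd = ∑ h : H, (f h).toAdd := by
  have hbij : Function.Bijective g := by
    rw [Fintype.bijective_iff_injective_and_card]
    refine ⟨hi, ?_⟩
    rw [Fintype.card_fin, ← Nat.card_eq_fintype_card, hcard]
  exact Fintype.sum_bijective g hbij _ _ (fun s => rfl)

/-- no transversal lies in the group table -/
theorem no_transversal' (hreg : ∀ x y : Fin n, ∃! h, h ∈ H ∧ h x = y) (hcard : Nat.card H = n)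
    (hn : Even n) (hn0 : 0 < n) {h : Equiv.Perm (Fin n)} (hh : h ∈ H) (hs : sign h = -1)
    {g : Fin n → Equiv.Perm (Fin n)} (hg : ∀ s, g s ∈ H)
    (hgi : Function.Injective g) {c c' : Fin n → Fin n} (hc : Function.Injective c)
    (hc' : Function.Injective c') : ∃ s, g s (c s) ≠ c' s := by
  by_contra hcon
  push Not at hcon
  obtain ⟨K, f, hK, hf, hodd⟩ := exists_hom hreg hcard hn hn0 hh hs
  choose x hx _ using fun s => hreg ⟨0, hn0⟩ (c s)
  choose y hy hyu using fun s => hreg ⟨0, hn0⟩ (c' s)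
  have e1 : ∀ s, g s * x s = y s := by
    intro s
    refine hyu s _ ⟨H.mul_mem (hg s) (hx s).1, ?_⟩
    rw [Equiv.Perm.mul_apply, (hx s).2, hcon s]
  have hxi : Function.Injective x := by
    intro s t e
    apply hc
    rw [← (hx s).2, ← (hx t).2, e]
  have hyi : Function.Injective y := by
    intro s t e
    apply hc'
    rw [← (hy s).2, ← (hy t).2, e]
  have p1 := sum_inj hcard (f := f) (g := fun s => ⟨g s, hg s⟩)
    (fun s t e => hgi (congrArg Subtype.val e))
  have p2 := sum_inj hcard (f := f) (g := fun s => ⟨x s, (hx s).1⟩)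
    (fun s t e => hxi (congrArg Subtype.val e))
  have p3 := sum_inj hcard (f := f) (g := fun s => ⟨y s, (hy s).1⟩)
    (fun s t e => hyi (congrArg Subtype.val e))
  have p4 : ∑ s, (f ⟨y s, (hy s).1⟩).toAdd = ∑ s, (f ⟨g s, hg s⟩).toAdd +
      ∑ s, (f ⟨x s, (hx s).1⟩).toAdd := by
    rw [← sum_add_distrib]
    refine sum_congr rfl fun s _ => ?_
    rw [← toAdd_mul, ← map_mul]
    congr 2
    exact Subtype.ext (e1 s).symm
  rw [p1, p2, p3] at p4
  exact sum_ne hK hf hodd (left_eq_add.1 p4)

/-- if the rows have an orthogonal mate, there are many violations or few odd rows -/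
theorem many_fail' {u : Fin n → Equiv.Perm (Fin n)} (hu : Sharp u) (hn : Even n) (hn0 : 0 < n)
    {M : Fin n → Fin n → Fin n} (hM1 : ∀ s, Function.Bijective (M s))
    (hM2 : ∀ c s t, M s c = M t c → s = t)
    (horth : ∀ s t c d, u s c = d → ∀ d', u t c = d' → M s d = M t d' → s = t) :
    n ^ 3 ≤ 32 * F u ∨ 8 * (univ.filter fun s => sign (u s) = -1).card < n := by
  by_contra hcon
  push Not at hcon
  obtain ⟨hcon, hodd⟩ := hcon
  obtain ⟨H, g, hreg, hH, hg, hgi, hsum⟩ := close hu hn0 hcon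
  have hcount : (univ.filter fun s => ¬ u s = g s).card ≤
      ∑ s, (univ.filter fun c => u s c ≠ g s c).card := by
    rw [card_filter]
    refine sum_le_sum fun s _ => ?_
    by_cases h : u s = g s
    · rw [if_neg (not_not.2 h)]
      exact Nat.zero_le _
    · rw [if_pos h, Nat.one_le_iff_ne_zero, card_ne_zero]
      by_contra hcon
      apply h
      ext c
      by_contra hc
      exact hcon ⟨c, by simpa using fun h' => hc (by rw [h'])⟩
  obtain ⟨s0, hs1, hs2⟩ : ∃ s, sign (u s) = -1 ∧ u s = g s := by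
    by_contra hne
    push Not at hne
    have h1 : (univ.filter fun s => sign (u s) = -1) ⊆ (univ.filter fun s => ¬ u s = g s) := by
      intro s hs
      rw [mem_filter] at hs ⊢
      exact ⟨mem_univ _, hne s hs.2⟩
    have h2 := card_le_card h1
    omega
  rw [hs2] at hs1
  -- the transversals
  have h1 : ∀ μ : Fin n, ∃ s c, u s c ≠ g s c ∧ M s (u s c) = μ := by
    intro μ
    choose c' hc' using fun s => (hM1 s).2 μ
    have e1 : ∀ s, u s ((u s)⁻¹ (c' s)) = c' s := fun s => app_inv _ _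
    obtain ⟨s, hs⟩ := no_transversal' hreg hH hn hn0 (hg s0) hs1 hg hgi
      (c := fun s => (u s)⁻¹ (c' s)) (c' := c')
      (by
        intro s t e
        have e' : (u s)⁻¹ (c' s) = (u t)⁻¹ (c' t) := e
        refine horth s t ((u s)⁻¹ (c' s)) (c' s) (e1 s) (c' t) ?_ ?_
        · rw [e', e1]
        · rw [hc' s, hc' t])
      (by
        intro s t e
        refine hM2 (c' s) s t ?_
        rw [hc' s, e, hc' t])
    refine ⟨s, (u s)⁻¹ (c' s), ?_, ?_⟩
    · rw [e1]
      exact fun e => hs e.symm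
    · rw [e1, hc']
  choose S C hSC hμ using h1
  have h2 : (univ : Finset (Fin n)).card ≤
      (univ.filter fun p : Fin n × Fin n => u p.1 p.2 ≠ g p.1 p.2).card := by
    refine card_le_card_of_injOn (fun μ => (S μ, C μ)) ?_ ?_
    · intro μ _
      simp only [coe_filter, mem_univ, true_and, Set.mem_ofPred_eq]
      exact hSC μ
    · intro μ _ ν _ e
      simp only [Prod.mk.injEq] at e
      have h3 := hμ μ
      rw [e.1, e.2, hμ ν] at h3
      exact h3.symm
  rw [card_univ, Fintype.card_fin] at h2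
  have h3 : (univ.filter fun p : Fin n × Fin n => u p.1 p.2 ≠ g p.1 p.2).card =
      ∑ s, (univ.filter fun c => u s c ≠ g s c).card := by
    simp_rw [card_filter, Fintype.sum_prod_type]
  omega

end Pool.Agent.N345.Mann
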