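import Pool.Agent.N345.Mann.Reg

set_option autoImplicit false
set_option linter.unusedSectionVars false

/-!
# Few violations: the rows are close to a regular group of permutations
-/

namespace Pool.Agent.N345.Mann

open Finset
open scoped Classical

variable {n : ℕ}

/-- a violation -/
def Fail (u : Fin n → Equiv.Perm (Fin n)) (s t x y : Fin n) : Prop :=
  ∃ w, u w x = u s (u t x) ∧ u w y ≠ u s (u t y)

/-- the number of violations -/
noncomputable def F (u : Fin n → Equiv.Perm (Fin n)) : ℕ :=
  ∑ s, ∑ t, (univ.filter fun p : Fin n × Fin n => Fail u s t p.1 p.2).card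

theorem app_inv (g : Equiv.Perm (Fin n)) (x : Fin n) : g (g⁻¹ x) = x := by simp

variable {u : Fin n → Equiv.Perm (Fin n)} (hu : Sharp u) (hn : 0 < n)
include hu hn

theorem nb_le : nb u * n ≤ F u := by
  have e1 : nb u = ∑ s, ∑ t, (if ¬ InU u (u s * u t) then 1 else 0) := by
    rw [nb, card_filter, Fintype.sum_prod_type]
  rw [e1, F, sum_mul]
  refine sum_le_sum fun s _ => ?_
  rw [sum_mul]
  refine sum_le_sum fun t _ => ?_
  by_cases h : InU u (u s * u t)
  · rw [if_neg (not_not.2 h)]
    simp
  · rw [if_pos h, one_mul]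
    have h1 : ∀ x : Fin n, ∃ y, Fail u s t x y := by
      intro x
      obtain ⟨w, hw⟩ := hu.ex x (u s (u t x))
      by_contra hcon
      push Not at hcon
      apply h
      refine ⟨w, ?_⟩
      ext y
      have h2 := hcon y
      unfold Fail at h2
      push Not at h2
      rw [h2 w hw]
      rfl
    choose f hf using h1
    have h2 : (univ : Finset (Fin n)).card ≤
        (univ.filter fun p : Fin n × Fin n => Fail u s t p.1 p.2).card := by
      refine card_le_card_of_injOn (fun x => (x, f x)) ?_ ?_
      · intro x _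
        simp only [coe_filter, mem_univ, true_and, Set.mem_ofPred_eq]
        exact hf x
      · intro x _ y _ e
        exact congrArg Prod.fst e
    rw [card_univ, Fintype.card_fin] at h2
    exact h2

variable {H : Subgroup (Equiv.Perm (Fin n))} (hH : ∀ g ∈ H, 3 * n < 4 * N u g)
  (hU : 4 * (univ.filter fun s => u s ∉ H).card < n)
include hH hU

/-- few elements of `H` are not rows -/
theorem card_notU {g : Equiv.Perm (Fin n)} (hg : g ∈ H) :
    4 * (univ.filter fun t => u t ∈ H ∧ ¬ InU u (g * u t)).card < n := by
  have hc := card_H hu hn hH hU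
  set Hf : Finset (Equiv.Perm (Fin n)) := univ.filter fun h => h ∈ H with hHf
  have hHc : Hf.card = Nat.card H := by
    rw [Nat.card_eq_fintype_card, ← Fintype.card_coe]
    refine Fintype.card_congr (Equiv.subtypeEquivRight fun g => ?_)
    simp [hHf]
  have h1 : (univ.filter fun t => u t ∈ H ∧ ¬ InU u (g * u t)).card ≤
      (Hf.filter fun h => ¬ InU u h).card := by
    refine card_le_card_of_injOn (fun t => g * u t) ?_ ?_
    · intro t ht
      simp only [coe_filter, mem_univ, true_and, Set.mem_ofPred_eq] at ht ⊢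
      rw [hHf, mem_filter]
      exact ⟨⟨mem_univ _, H.mul_mem hg ht.1⟩, ht.2⟩
    · intro t _ t' _ e
      exact u_inj hu hn (mul_left_cancel e)
  have h2 : (univ.filter fun s => u s ∈ H).card ≤ (Hf.filter fun h => InU u h).card := by
    refine card_le_card_of_injOn u ?_ ?_
    · intro t ht
      simp only [coe_filter, mem_univ, true_and, Set.mem_ofPred_eq] at ht ⊢
      rw [hHf, mem_filter]
      exact ⟨⟨mem_univ _, ht⟩, t, rfl⟩
    · intro t _ t' _ e
      exact u_inj hu hn e
  have h3 := card_filter_add_card_filter_not (s := Hf) (fun h => InU u h)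
  have h4 := card_filter_add_card_filter_not (s := (univ : Finset (Fin n))) (fun s => u s ∈ H)
  rw [card_univ, Fintype.card_fin] at h4
  omega

/-- every row is close to an element of the group -/
theorem row_close (s : Fin n) : ∃ g ∈ H, n * n * (univ.filter fun c => u s c ≠ g c).card ≤
    4 * ∑ t, (univ.filter fun p : Fin n × Fin n => Fail u s t p.1 p.2).card := by
  have hreg := regular hu hn hH hU
  obtain ⟨g0, hg0, hmin⟩ := Finset.exists_min_image
    (univ.filter fun g : Equiv.Perm (Fin n) => g ∈ H)
    (fun g => (univ.filter fun c => u s c ≠ g c).card)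
    ⟨1, by simp⟩
  rw [mem_filter] at hg0
  refine ⟨g0, hg0.2, ?_⟩
  set j := (univ.filter fun c => u s c ≠ g0 c).card with hj
  choose h hh _ using fun c => hreg c (u s c)
  set A : Fin n × Fin n → Finset (Fin n) := fun p => univ.filter fun t =>
    u t ∈ H ∧ InU u (h p.1 * u t) ∧ InU u (h p.2 * u t) with hA
  set D := univ.filter fun p : Fin n × Fin n => h p.1 ≠ h p.2 with hD
  have hAc : ∀ p, n ≤ 4 * (A p).card := by
    intro p
    have h1 : (univ : Finset (Fin n)) ⊆ A p ∪ ((univ.filter fun s => u s ∉ H) ∪
        ((univ.filter fun t => u t ∈ H ∧ ¬ InU u (h p.1 * u t)) ∪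
        (univ.filter fun t => u t ∈ H ∧ ¬ InU u (h p.2 * u t)))) := by
      intro t _
      simp only [hA, mem_union, mem_filter, mem_univ, true_and]
      tauto
    have h2 := card_le_card h1
    rw [card_univ, Fintype.card_fin] at h2
    have h3 := card_union_le (A p) ((univ.filter fun s => u s ∉ H) ∪
        ((univ.filter fun t => u t ∈ H ∧ ¬ InU u (h p.1 * u t)) ∪
        (univ.filter fun t => u t ∈ H ∧ ¬ InU u (h p.2 * u t))))
    have h4 := card_union_le (univ.filter fun s => u s ∉ H)
        ((univ.filter fun t => u t ∈ H ∧ ¬ InU u (h p.1 * u t)) ∪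
        (univ.filter fun t => u t ∈ H ∧ ¬ InU u (h p.2 * u t)))
    have h5 := card_union_le (univ.filter fun t => u t ∈ H ∧ ¬ InU u (h p.1 * u t))
        (univ.filter fun t => u t ∈ H ∧ ¬ InU u (h p.2 * u t))
    have h6 := card_notU hu hn hH hU (hh p.1).1
    have h7 := card_notU hu hn hH hU (hh p.2).1
    omega
  have hDc : n * j ≤ D.card := by
    have e1 : D.card = ∑ x, (univ.filter fun y => h x ≠ h y).card := by
      rw [hD]
      simp_rw [card_filter, Fintype.sum_prod_type]
    rw [e1]
    have e2 : ∑ x : Fin n, j ≤ ∑ x, (univ.filter fun y => h x ≠ h y).card := by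
      refine sum_le_sum fun x _ => ?_
      refine (hmin (h x) (by simpa using (hh x).1)).trans (card_le_card fun y hy => ?_)
      simp only [mem_filter, mem_univ, true_and] at hy ⊢
      intro e
      apply hy
      rw [e]
      exact (hh y).2.symm
    rwa [sum_const, card_univ, Fintype.card_fin, smul_eq_mul] at e2
  have hsum : ∑ p ∈ D, (A p).card ≤
      ∑ t, (univ.filter fun p : Fin n × Fin n => Fail u s t p.1 p.2).card := by
    have e1 : ∑ p ∈ D, (A p).card = ∑ t, (D.filter fun p => t ∈ A p).card := by
      have : ∀ p ∈ D, (A p).card = ∑ t, (if t ∈ A p then 1 else 0) := by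
        intro p _
        rw [← card_filter]
        congr 1
        ext t
        simp
      rw [sum_congr rfl this, sum_comm]
      refine sum_congr rfl fun t _ => ?_
      rw [card_filter]
    rw [e1]
    refine sum_le_sum fun t _ => ?_
    refine card_le_card_of_injOn (fun p => ((u t)⁻¹ p.1, (u t)⁻¹ p.2)) ?_ ?_
    · intro p hp
      simp only [hD, hA, coe_filter, mem_filter, mem_univ, true_and, Set.mem_ofPred_eq] at hp ⊢
      obtain ⟨hne, htH, ⟨w, hw⟩, ⟨w', hw'⟩⟩ := hp
      refine ⟨w, ?_, ?_⟩
      · rw [hw, Equiv.Perm.mul_apply, app_inv]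
        exact (hh p.1).2
      · rw [app_inv]
        intro e
        have e3 : u w' ((u t)⁻¹ p.2) = u s p.2 := by
          rw [hw', Equiv.Perm.mul_apply, app_inv]
          exact (hh p.2).2
        have e4 := hu.inj _ _ _ (e.trans e3.symm)
        subst e4
        rw [hw] at hw'
        exact hne (mul_right_cancel hw')
    · intro p _ q _ e
      simp only [Prod.mk.injEq] at e
      exact Prod.ext ((u t)⁻¹.injective e.1) ((u t)⁻¹.injective e.2)
  calc n * n * j = n * (n * j) := by ring
    _ ≤ n * D.card := Nat.mul_le_mul_left _ hDc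
    _ = ∑ p ∈ D, n := by rw [sum_const, smul_eq_mul, mul_comm]
    _ ≤ ∑ p ∈ D, 4 * (A p).card := sum_le_sum fun p _ => hAc p
    _ = 4 * ∑ p ∈ D, (A p).card := by rw [mul_sum]
    _ ≤ _ := Nat.mul_le_mul_left 4 hsum

omit hH hU in
/-- few violations: the rows are close to a regular group -/
theorem close (hF : 32 * F u < n ^ 3) : ∃ (H : Subgroup (Equiv.Perm (Fin n)))
    (g : Fin n → Equiv.Perm (Fin n)), (∀ x y : Fin n, ∃! h, h ∈ H ∧ h x = y) ∧ Nat.card H = n ∧
    (∀ s, g s ∈ H) ∧ Function.Injective g ∧
    8 * ∑ s, (univ.filter fun c => u s c ≠ g s c).card < n := by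
  have h1 : 32 * nb u < n ^ 2 := by
    have h2 := nb_le hu hn
    have h3 : 32 * nb u * n < n ^ 2 * n := by
      have : n ^ 2 * n = n ^ 3 := by ring
      rw [this]
      linarith
    exact Nat.lt_of_mul_lt_mul_right h3
  obtain ⟨H, hH, hU⟩ := exists_group hu hn h1
  choose g hg hclose using row_close hu hn hH hU
  have hsum : 8 * ∑ s, (univ.filter fun c => u s c ≠ g s c).card < n := by
    have h2 : n * n * ∑ s, (univ.filter fun c => u s c ≠ g s c).card ≤ 4 * F u := by
      rw [mul_sum, F, mul_sum]
      exact sum_le_sum fun s _ => hclose s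
    have h3 : (n * n) * (8 * ∑ s, (univ.filter fun c => u s c ≠ g s c).card) < (n * n) * n := by
      have : n * n * n = n ^ 3 := by ring
      rw [this]
      linarith
    exact Nat.lt_of_mul_lt_mul_left h3
  refine ⟨H, g, regular hu hn hH hU, card_H hu hn hH hU, hg, ?_, hsum⟩
  intro s t hst
  by_contra hne
  have h2 : (univ.filter fun c => u s c ≠ g s c).card + (univ.filter fun c => u t c ≠ g t c).card ≤
      ∑ s, (univ.filter fun c => u s c ≠ g s c).card := by
    rw [← sum_pair hne (f := fun s => (univ.filter fun c => u s c ≠ g s c).card)]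
    exact sum_le_sum_of_subset (subset_univ _)
  have h3 : (univ : Finset (Fin n)) ⊆ (univ.filter fun c => u s c ≠ g s c) ∪
      (univ.filter fun c => u t c ≠ g t c) := by
    intro c _
    simp only [mem_union, mem_filter, mem_univ, true_and]
    by_contra hcon
    push Not at hcon
    exact hne (hu.inj s t c (by rw [hcon.1, hcon.2, hst]))
  have h4 := (card_le_card h3).trans (card_union_le _ _)
  rw [card_univ, Fintype.card_fin] at h4
  omega

end Pool.Agent.N345.Mann
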