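import Pool.Agent.N345.Sym.AxGroup

set_option autoImplicit false
set_option linter.unusedSectionVars false

/-!
# Sharply transitive sets of permutations which are almost closed under products
-/

namespace Pool.Agent.N345.Mann

open Finset
open scoped Classical

variable {n : ℕ}

/-- a sharply transitive set of permutations containing the identity, in the sense of rows of a
latin square -/
structure Sharp (u : Fin n → Equiv.Perm (Fin n)) : Prop where
  ex : ∀ c c', ∃ w, u w c = c'
  inj : ∀ w w' c, u w c = u w' c → w = w'
  one : ∃ r, u r = 1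

variable (u : Fin n → Equiv.Perm (Fin n))

/-- the permutation is one of the `u w` -/
def InU (g : Equiv.Perm (Fin n)) : Prop := ∃ w, u w = g

/-- the number of `t` such that `g * u t` is one of the `u w` -/
noncomputable def N (g : Equiv.Perm (Fin n)) : ℕ := (univ.filter fun t => InU u (g * u t)).card

/-- the number of bad pairs -/
noncomputable def nb : ℕ := (univ.filter fun p : Fin n × Fin n => ¬ InU u (u p.1 * u p.2)).card

variable {u} (hu : Sharp u) (hn : 0 < n)
include hu hn

theorem u_inj {t w : Fin n} (h : u t = u w) : t = w :=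
  hu.inj t w ⟨0, hn⟩ (by rw [h])

theorem N_one : N u 1 = n := by
  rw [N]
  have : (univ.filter fun t => InU u (1 * u t)) = univ := by
    ext t
    simp only [mem_filter, mem_univ, true_and, iff_true, one_mul]
    exact ⟨t, rfl⟩
  rw [this, card_univ, Fintype.card_fin]

theorem N_div (a b : Equiv.Perm (Fin n)) : N u a + N u b ≤ N u (a * b⁻¹) + n := by
  have h1 : ((univ.filter fun t => InU u (a * u t)) ∩ (univ.filter fun t => InU u (b * u t))).card ≤
      N u (a * b⁻¹) := by
    have hch : ∀ t, ∃ w, InU u (b * u t) → u w = b * u t := by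
      intro t
      by_cases h : InU u (b * u t)
      · obtain ⟨w, hw⟩ := h
        exact ⟨w, fun _ => hw⟩
      · exact ⟨t, fun h' => absurd h' h⟩
    choose f hf using hch
    refine card_le_card_of_injOn f ?_ ?_
    · intro t ht
      simp only [coe_inter, coe_filter, mem_univ, true_and, Set.mem_inter_iff,
        Set.mem_ofPred_eq] at ht
      simp only [coe_filter, mem_univ, true_and, Set.mem_ofPred_eq]
      rw [hf t ht.2]
      have : a * b⁻¹ * (b * u t) = a * u t := by group
      rw [this]
      exact ht.1
    · intro t ht t' ht' h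
      simp only [coe_inter, coe_filter, mem_univ, true_and, Set.mem_inter_iff,
        Set.mem_ofPred_eq] at ht ht'
      have e1 := hf t ht.2
      have e2 := hf t' ht'.2
      rw [h, e2] at e1
      exact (u_inj hu hn (mul_left_cancel e1)).symm
  have h3 := card_union_add_card_inter (univ.filter fun t => InU u (a * u t))
    (univ.filter fun t => InU u (b * u t))
  have h4 := card_le_univ ((univ.filter fun t => InU u (a * u t)) ∪
    (univ.filter fun t => InU u (b * u t)))
  rw [Fintype.card_fin] at h4
  simp only [N] at h1 ⊢
  omega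

theorem N_inv_ge (b : Equiv.Perm (Fin n)) : N u b ≤ N u b⁻¹ := by
  have h1 := N_div hu hn 1 b
  rw [one_mul, N_one hu hn] at h1
  omega

/-- the coset theorem -/
theorem exists_group (hb : 32 * nb u < n ^ 2) :
    ∃ H : Subgroup (Equiv.Perm (Fin n)),
      (∀ g ∈ H, 3 * n < 4 * N u g) ∧ 4 * (univ.filter fun s => u s ∉ H).card < n := by
  set P := univ.filter fun s => 7 * n < 8 * N u (u s) with hP
  have hPc : 4 * (univ.filter fun s => ¬ 7 * n < 8 * N u (u s)).card < n := by
    have h1 : (univ.filter fun s => ¬ 7 * n < 8 * N u (u s)).card * n ≤ 8 * nb u := by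
      have e1 : nb u = ∑ s, (univ.filter fun t => ¬ InU u (u s * u t)).card := by
        rw [nb]
        simp_rw [card_filter, Fintype.sum_prod_type]
      rw [e1, mul_sum, ← smul_eq_mul, ← sum_const]
      refine le_trans ?_ (sum_le_sum_of_subset (filter_subset
        (fun s => ¬ 7 * n < 8 * N u (u s)) univ))
      refine sum_le_sum fun s hs => ?_
      rw [mem_filter] at hs
      have h2 := card_filter_add_card_filter_not (s := (univ : Finset (Fin n)))
        (fun t => InU u (u s * u t))
      rw [card_univ, Fintype.card_fin] at h2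
      have h3 := hs.2
      unfold N at h3
      omega
    have h5 : 4 * (univ.filter fun s => ¬ 7 * n < 8 * N u (u s)).card * n < n * n := by nlinarith
    exact Nat.lt_of_mul_lt_mul_right h5
  have key : ∀ g, n < 2 * N u g → 3 * n < 4 * N u g := by
    intro g hg
    have hch : ∀ t, ∃ w, InU u (g * u t) → u w = g * u t := by
      intro t
      by_cases h : InU u (g * u t)
      · obtain ⟨w, hw⟩ := h
        exact ⟨w, fun _ => hw⟩
      · exact ⟨t, fun h' => absurd h' h⟩
    choose f hf using hch
    obtain ⟨t, ht, ht1, ht2⟩ : ∃ t, InU u (g * u t) ∧ 7 * n < 8 * N u (u t) ∧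
        7 * n < 8 * N u (u (f t)) := by
      by_contra hcon
      push Not at hcon
      have h1 : (univ.filter fun t => InU u (g * u t)) ⊆
          (univ.filter fun s => ¬ 7 * n < 8 * N u (u s)) ∪
          (univ.filter fun t => InU u (g * u t) ∧ ¬ 7 * n < 8 * N u (u (f t))) := by
        intro t ht
        rw [mem_filter] at ht
        by_cases h2 : 7 * n < 8 * N u (u t)
        · refine mem_union_right _ (mem_filter.2 ⟨mem_univ _, ht.2, ?_⟩)
          exact not_lt.2 (hcon t ht.2 h2)
        · exact mem_union_left _ (mem_filter.2 ⟨mem_univ _, h2⟩)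
      have h3 : (univ.filter fun t => InU u (g * u t) ∧ ¬ 7 * n < 8 * N u (u (f t))).card ≤
          (univ.filter fun s => ¬ 7 * n < 8 * N u (u s)).card := by
        refine card_le_card_of_injOn f ?_ ?_
        · intro t ht
          simp only [coe_filter, mem_univ, true_and, Set.mem_ofPred_eq] at ht ⊢
          exact ht.2
        · intro t ht t' ht' h
          simp only [coe_filter, mem_univ, true_and, Set.mem_ofPred_eq] at ht ht'
          have e1 := hf t ht.1
          have e2 := hf t' ht'.1
          rw [h, e2] at e1
          exact (u_inj hu hn (mul_left_cancel e1)).symm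
      have h4 := (card_le_card h1).trans (card_union_le _ _)
      unfold N at hg
      omega
    have e1 := hf t ht
    have e2 : u (f t) * (u t)⁻¹ = g := by rw [e1]; group
    have h3 := N_div hu hn (u (f t)) (u t)
    rw [e2] at h3
    omega
  refine ⟨{ carrier := {g | n < 2 * N u g}
            one_mem' := ?_
            mul_mem' := ?_
            inv_mem' := ?_ }, fun g hg => key g hg, ?_⟩
  · intro a b ha hb
    have h3 := N_div hu hn a b⁻¹
    rw [inv_inv] at h3
    have h4 := key a ha
    have h5 := key b hb
    have h6 := N_inv_ge hu hn b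
    simp only [Set.mem_ofPred_eq]
    omega
  · simp only [Set.mem_ofPred_eq, N_one hu hn]
    omega
  · intro a ha
    have := N_inv_ge hu hn a
    simp only [Set.mem_ofPred_eq] at ha ⊢
    omega
  · refine lt_of_le_of_lt (Nat.mul_le_mul_left 4 (card_le_card ?_)) hPc
    intro s hs
    simp only [mem_filter, mem_univ, true_and] at hs ⊢
    intro h1
    apply hs
    change n < 2 * N u (u s)
    omega

variable {H : Subgroup (Equiv.Perm (Fin n))} (hH : ∀ g ∈ H, 3 * n < 4 * N u g)
  (hU : 4 * (univ.filter fun s => u s ∉ H).card < n)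
include hH

/-- the group is semiregular -/
theorem free : ∀ g ∈ H, ∀ x, g x = x → g = 1 := by
  intro g hg x hx
  have h1 := hH g hg
  have h2 : 0 < N u g := by omega
  obtain ⟨t, ht⟩ := card_pos.1 h2
  rw [mem_filter] at ht
  obtain ⟨w, hw⟩ := ht.2
  have h3 : u w ((u t)⁻¹ x) = u t ((u t)⁻¹ x) := by
    rw [hw, Equiv.Perm.mul_apply]
    simp [hx]
  have h4 := hu.inj _ _ _ h3
  subst h4
  have h5 : g * u w = 1 * u w := by rw [one_mul]; exact hw.symm
  exact mul_right_cancel h5

include hU

theorem card_H : Nat.card H = n := by
  have hfree := free hu hn hH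
  have h1 : Nat.card H ∣ n := by
    have := Pool.Agent.N345.Sym.card_dvd_free H univ (fun _ _ _ _ => mem_univ _)
      (fun σ hσ hne x _ hx => hne (hfree σ hσ x hx))
    rwa [card_univ, Fintype.card_fin] at this
  have h2 : (univ.filter fun s => u s ∈ H).card ≤ Nat.card H := by
    rw [Nat.card_eq_fintype_card, ← Fintype.card_coe]
    refine Fintype.card_le_of_injective
      (fun s : (univ.filter fun s => u s ∈ H) => (⟨u s.1, (mem_filter.1 s.2).2⟩ : H)) ?_
    intro s t h
    have h3 : u s.1 = u t.1 := congrArg Subtype.val h
    exact Subtype.ext (u_inj hu hn h3)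
  have h3 := card_filter_add_card_filter_not (s := (univ : Finset (Fin n))) (fun s => u s ∈ H)
  rw [card_univ, Fintype.card_fin] at h3
  obtain ⟨q, hq⟩ := h1
  have h4 : q = 1 := by
    by_contra hne
    have h5 : q ≠ 0 := by
      rintro rfl
      simp at hq
      omega
    have h6 : 2 ≤ q := by omega
    have h7 : Nat.card H * 2 ≤ Nat.card H * q := Nat.mul_le_mul_left _ h6
    omega
  rw [h4, mul_one] at hq
  exact hq.symm

/-- the group is regular -/
theorem regular (x y : Fin n) : ∃! g, g ∈ H ∧ g x = y := by
  have hfree := free hu hn hH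
  have h1 := card_H hu hn hH hU
  have hinj : Function.Injective (fun g : H => g.1 x) := by
    intro g h e
    have h2 : ((h : Equiv.Perm (Fin n))⁻¹ * g) x = x := by
      have e' : g.1 x = h.1 x := e
      rw [Equiv.Perm.mul_apply, e']
      simp
    have h3 := hfree _ (H.mul_mem (H.inv_mem h.2) g.2) x h2
    exact Subtype.ext (inv_mul_eq_one.1 h3).symm
  have hbij : Function.Bijective (fun g : H => g.1 x) := by
    rw [Fintype.bijective_iff_injective_and_card]
    refine ⟨hinj, ?_⟩
    rw [← Nat.card_eq_fintype_card, h1, Fintype.card_fin]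
  obtain ⟨g, hg⟩ := hbij.2 y
  refine ⟨g.1, ⟨g.2, hg⟩, ?_⟩
  rintro h ⟨hh, e⟩
  exact congrArg Subtype.val (hinj (a₁ := ⟨h, hh⟩) (a₂ := g) (e.trans hg.symm))

end Pool.Agent.N345.Mann
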