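import Pool.Agent.N345.Mann.Few

set_option autoImplicit false
set_option linter.unusedSectionVars false

/-!
# Regular groups of order `2 mod 4` and transversals
-/

namespace Pool.Agent.N345.Mann

open Finset Equiv.Perm
open scoped Classical

variable {n : ℕ} {H : Subgroup (Equiv.Perm (Fin n))}
  (hreg : ∀ x y : Fin n, ∃! h, h ∈ H ∧ h x = y) (hH : Nat.card H = n) (hn : n % 4 = 2)
include hreg hH hn

theorem free_of_reg {h : Equiv.Perm (Fin n)} (hh : h ∈ H) {x : Fin n} (hx : h x = x) : h = 1 := by
  obtain ⟨g, -, hg⟩ := hreg x x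
  exact (hg h ⟨hh, hx⟩).trans (hg 1 ⟨H.one_mem, rfl⟩).symm

/-- an odd permutation -/
theorem exists_odd : ∃ h ∈ H, sign h = -1 := by
  have h2 : 2 ∣ Nat.card H := by omega
  have : Fact (Nat.Prime 2) := ⟨Nat.prime_two⟩
  obtain ⟨h0, h0o⟩ := exists_prime_orderOf_dvd_card' (G := H) 2 h2
  refine ⟨h0.1, h0.2, ?_⟩
  have ho : orderOf (h0 : Equiv.Perm (Fin n)) = 2 := by
    rw [Subgroup.orderOf_coe]; exact h0o
  have hne : (h0 : Equiv.Perm (Fin n)) ≠ 1 := by
    intro e
    rw [e, orderOf_one] at ho
    omega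
  have hsupp : (h0 : Equiv.Perm (Fin n)).support = univ := by
    ext x
    simp only [mem_support, mem_univ, iff_true]
    intro hx
    exact hne (free_of_reg hreg hH hn h0.2 hx)
  obtain ⟨m, hm⟩ := cycleType_prime_order (σ := (h0 : Equiv.Perm (Fin n))) (by
    rw [ho]; exact Nat.prime_two)
  have hsum := sum_cycleType (h0 : Equiv.Perm (Fin n))
  rw [hm, ho, hsupp, card_univ, Fintype.card_fin, Multiset.sum_replicate, smul_eq_mul] at hsum
  rw [sign_of_cycleType, hm, ho, Multiset.sum_replicate, Multiset.card_replicate, smul_eq_mul,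
    hsum]
  have hodd : Odd (n + (m + 1)) := by
    rw [Nat.odd_iff]
    omega
  exact hodd.neg_one_pow

/-- the product of the signs of the elements of the group is `-1` -/
theorem prod_sign : ∏ h : H, sign (h : Equiv.Perm (Fin n)) = -1 := by
  obtain ⟨h0, hh0, hs⟩ := exists_odd hreg hH hn
  set a : H := ⟨h0, hh0⟩ with ha
  have e1 : ∏ h : H, sign (h : Equiv.Perm (Fin n)) =
      ∏ h : H, (if sign (h : Equiv.Perm (Fin n)) = -1 then (-1 : ℤˣ) else 1) := by
    refine prod_congr rfl fun h _ => ?_
    rcases Int.units_eq_one_or (sign (h : Equiv.Perm (Fin n))) with h1 | h1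
    · rw [h1]; rfl
    · rw [h1]; rfl
  rw [e1, prod_ite, prod_const, prod_const_one, mul_one]
  have e2 : (univ.filter fun h : H => sign (h : Equiv.Perm (Fin n)) = -1).card =
      (univ.filter fun h : H => ¬ sign (h : Equiv.Perm (Fin n)) = -1).card := by
    refine card_bij (fun h _ => a * h) ?_ ?_ ?_
    · intro h hh
      simp only [mem_filter, mem_univ, true_and] at hh ⊢
      rw [Subgroup.coe_mul, Equiv.Perm.sign_mul, hh, ha]
      simp only [hs]
      decide
    · intro h _ h' _ e
      exact mul_left_cancel e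
    · intro h hh
      simp only [mem_filter, mem_univ, true_and] at hh
      refine ⟨a⁻¹ * h, ?_, by group⟩
      simp only [mem_filter, mem_univ, true_and]
      rw [Subgroup.coe_mul, Equiv.Perm.sign_mul, Subgroup.coe_inv, sign_inv, ha]
      simp only [hs]
      rcases Int.units_eq_one_or (sign (h : Equiv.Perm (Fin n))) with h1 | h1
      · rw [h1]; rfl
      · exact absurd h1 hh
  have e3 := card_filter_add_card_filter_not (s := (univ : Finset H))
    (fun h : H => sign (h : Equiv.Perm (Fin n)) = -1)
  rw [card_univ, ← Nat.card_eq_fintype_card, hH] at e3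
  have hodd : Odd (univ.filter fun h : H => sign (h : Equiv.Perm (Fin n)) = -1).card := by
    rw [Nat.odd_iff]
    omega
  exact hodd.neg_one_pow

theorem prod_sign' {f : Fin n → Equiv.Perm (Fin n)} (hf : ∀ s, f s ∈ H)
    (hi : Function.Injective f) : ∏ s, sign (f s) = -1 := by
  rw [← prod_sign hreg hH hn]
  have hbij : Function.Bijective (fun s => (⟨f s, hf s⟩ : H)) := by
    rw [Fintype.bijective_iff_injective_and_card]
    refine ⟨fun s t e => hi (congrArg Subtype.val e), ?_⟩
    rw [Fintype.card_fin, ← Nat.card_eq_fintype_card, hH]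
  exact Fintype.prod_bijective _ hbij _ _ (fun s => rfl)

/-- no transversal lies in the group table -/
theorem no_transversal {g : Fin n → Equiv.Perm (Fin n)} (hg : ∀ s, g s ∈ H)
    (hgi : Function.Injective g) {c c' : Fin n → Fin n} (hc : Function.Injective c)
    (hc' : Function.Injective c') : ∃ s, g s (c s) ≠ c' s := by
  by_contra hcon
  push Not at hcon
  have hn0 : 0 < n := by omega
  choose x hx _ using fun s => hreg ⟨0, hn0⟩ (c s)
  choose y hy hyu using fun s => hreg ⟨0, hn0⟩ (c' s)
  have e1 : ∀ s, g s * x s = y s := by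
    intro s
    refine hyu s _ ⟨H.mul_mem (hg s) (hx s).1, ?_⟩
    rw [Equiv.Perm.mul_apply, (hx s).2, hcon s]
  have hxi : Function.Injective x := by
    intro s t e
    apply hc
    rw [← (hx s).2, ← (hx t).2, e]
  have hyi : Function.Injective y := by
    intro s t e
    apply hc'
    rw [← (hy s).2, ← (hy t).2, e]
  have p1 := prod_sign' hreg hH hn hg hgi
  have p2 := prod_sign' hreg hH hn (fun s => (hx s).1) hxi
  have p3 := prod_sign' hreg hH hn (fun s => (hy s).1) hyi
  have p4 : ∏ s, sign (y s) = (∏ s, sign (g s)) * ∏ s, sign (x s) := by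
    rw [← prod_mul_distrib]
    refine prod_congr rfl fun s _ => ?_
    rw [← e1, Equiv.Perm.sign_mul]
  rw [p1, p2, p3] at p4
  exact absurd p4 (by decide)

omit hreg hH in
/-- if the rows have an orthogonal mate, there are many violations -/
theorem many_fail {u : Fin n → Equiv.Perm (Fin n)} (hu : Sharp u)
    {M : Fin n → Fin n → Fin n} (hM1 : ∀ s, Function.Bijective (M s))
    (hM2 : ∀ c s t, M s c = M t c → s = t)
    (horth : ∀ s t c d, u s c = d → ∀ d', u t c = d' → M s d = M t d' → s = t) :
    n ^ 3 ≤ 32 * F u := by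
  by_contra hcon
  push Not at hcon
  have hn0 : 0 < n := by omega
  obtain ⟨H, g, hreg, hH, hg, hgi, hsum⟩ := close hu hn0 hcon
  -- the transversals
  have h1 : ∀ μ : Fin n, ∃ s c, u s c ≠ g s c ∧ M s (u s c) = μ := by
    intro μ
    choose c' hc' using fun s => (hM1 s).2 μ
    have e1 : ∀ s, u s ((u s)⁻¹ (c' s)) = c' s := fun s => app_inv _ _
    obtain ⟨s, hs⟩ := no_transversal hreg hH hn hg hgi (c := fun s => (u s)⁻¹ (c' s)) (c' := c')
      (by
        intro s t e
        have e' : (u s)⁻¹ (c' s) = (u t)⁻¹ (c' t) := e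
        refine horth s t ((u s)⁻¹ (c' s)) (c' s) (e1 s) (c' t) ?_ ?_
        · rw [e', e1]
        · rw [hc' s, hc' t])
      (by
        intro s t e
        refine hM2 (c' s) s t ?_
        rw [hc' s, e, hc' t])
    refine ⟨s, (u s)⁻¹ (c' s), ?_, ?_⟩
    · rw [e1]
      exact fun e => hs e.symm
    · rw [e1, hc']
  choose S C hSC hμ using h1
  have h2 : (univ : Finset (Fin n)).card ≤
      (univ.filter fun p : Fin n × Fin n => u p.1 p.2 ≠ g p.1 p.2).card := by
    refine card_le_card_of_injOn (fun μ => (S μ, C μ)) ?_ ?_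
    · intro μ _
      simp only [coe_filter, mem_univ, true_and, Set.mem_ofPred_eq]
      exact hSC μ
    · intro μ _ ν _ e
      simp only [Prod.mk.injEq] at e
      have h3 := hμ μ
      rw [e.1, e.2, hμ ν] at h3
      exact h3.symm
  rw [card_univ, Fintype.card_fin] at h2
  have h3 : (univ.filter fun p : Fin n × Fin n => u p.1 p.2 ≠ g p.1 p.2).card =
      ∑ s, (univ.filter fun c => u s c ≠ g s c).card := by
    simp_rw [card_filter, Fintype.sum_prod_type]
  omega

end Pool.Agent.N345.Mann
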